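import Mathlib

set_option autoImplicit false

namespace Pool.Agent.Results.MP_cb28d9_gt.Counter

open Set Filter Topology TopologicalSpace

/-- chains of the operation `m` -/
def Chain {Y : Type} (m : Y → Y → Y) (C : Set Y) : Prop := ∀ x ∈ C, ∀ y ∈ C, m x y = x ∨ m x y = y

/-- s-completeness; the natural order is `x ≤ y ↔ m x y = x` -/
def SComplete {Y : Type} [TopologicalSpace Y] (m : Y → Y → Y) : Prop :=
  (∀ S : Set Y, S.Nonempty → (∀ x ∈ S, ∀ y ∈ S, m x y ∈ S) → ∃ a, (∀ s ∈ S, m a s = a) ∧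
    (∀ b, (∀ s ∈ S, m b s = b) → m b a = b) ∧ a ∈ closure {x | ∃ s ∈ S, m s x = s}) ∧
  ∀ C : Set Y, C.Nonempty → Chain m C → ∃ a, (∀ c ∈ C, m c a = c) ∧
    (∀ b, (∀ c ∈ C, m c b = c) → m a b = a) ∧ a ∈ closure {x | ∃ c ∈ C, m x c = x}

/-- the operation restricted to a chain -/
def res {Y : Type} (m : Y → Y → Y) (L : Set Y) (h : Chain m L) (x y : L) : L :=
  ⟨m x y, (h x x.2 y y.2).elim (fun e => e.symm ▸ x.2) fun e => e.symm ▸ y.2⟩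

variable {Ω : Type} [LinearOrder Ω] {Ev : Set Ω}

def X (Ev : Set Ω) : Type := {E : Set Ω // (E.Finite ∧ E ⊆ Ev) ∨ IsLowerSet E}

instance : PartialOrder (X Ev) := Subtype.partialOrder _

open Classical in
noncomputable def c (E : Set Ω) : X Ev :=
  if h : E.Finite ∧ E ⊆ Ev then ⟨E, Or.inl h⟩ else ⟨lowerClosure E, Or.inr (lowerClosure E).lower⟩

theorem c_le {E : Set Ω} {x : X Ev} : c E ≤ x ↔ E ⊆ x.1 := by
  show (c E : X Ev).1 ⊆ x.1 ↔ _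
  by_cases h : E.Finite ∧ E ⊆ Ev
  · rw [show (c E : X Ev) = ⟨E, Or.inl h⟩ from dif_pos h]
  · rw [show (c E : X Ev) = ⟨lowerClosure E, Or.inr (lowerClosure E).lower⟩ from dif_neg h]
    refine ⟨subset_lowerClosure.trans, fun h1 => lowerClosure_min h1 (x.2.resolve_left fun h2 => h ?_)⟩
    exact ⟨h2.1.subset h1, h1.trans h2.2⟩

noncomputable def m (x y : X Ev) : X Ev := c (x.1 ∪ y.1)

theorem m_le {x y z : X Ev} : m x y ≤ z ↔ x ≤ z ∧ y ≤ z := c_le.trans union_subset_iff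

theorem m_eq {x y : X Ev} : m x y = x ↔ y ≤ x :=
  ⟨fun h => (m_le.1 h.le).2, fun h => le_antisymm (m_le.2 ⟨le_rfl, h⟩) (m_le.1 le_rfl).1⟩

theorem m_comm (x y : X Ev) : m x y = m y x := eq_of_forall_ge_iff fun _ => by simp only [m_le, and_comm]

theorem m_eq' {x y : X Ev} : m x y = y ↔ x ≤ y := by rw [m_comm, m_eq]

def ic (γ : Ω) : X Ev := ⟨Iic γ, Or.inr (isLowerSet_Iic γ)⟩
def io (γ : Ω) : X Ev := ⟨Iio γ, Or.inr (isLowerSet_Iio γ)⟩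
def o : X Ev := ⟨univ, Or.inr isLowerSet_univ⟩
def O : Set (X Ev) := {x | x = o ∨ ∃ γ ∉ Ev, x = ic γ}

theorem le_o (x : X Ev) : x ≤ o := subset_univ _

instance : TopologicalSpace (X Ev) := generateFrom {S | (∃ p, S = Iic p ∨ S = (Iic p)ᶜ) ∨ S = O}

theorem Iic_clopen (p : X Ev) : IsClopen (Iic p) :=
  ⟨isOpen_compl_iff.1 (isOpen_generateFrom_of_mem (Or.inl ⟨p, Or.inr rfl⟩)),
    isOpen_generateFrom_of_mem (Or.inl ⟨p, Or.inl rfl⟩)⟩

theorem O_open : IsOpen (O : Set (X Ev)) := isOpen_generateFrom_of_mem (Or.inr rfl)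

instance : T2Space (X Ev) := ⟨fun x y h => by
  by_cases h1 : x ≤ y
  · exact ⟨_, _, (Iic_clopen x).2, (Iic_clopen x).1.isOpen_compl, mem_Iic.2 le_rfl, fun h2 => h (h1.antisymm h2),
      disjoint_compl_right⟩
  · exact ⟨_, _, (Iic_clopen y).1.isOpen_compl, (Iic_clopen y).2, h1, mem_Iic.2 le_rfl, disjoint_compl_left⟩⟩

theorem pred {γ : Ω} (hγ : γ ∉ Ev) {x : X Ev} (h : x ≤ ic γ) (h' : x ≠ ic γ) : x ≤ io γ := fun z hz =>
  lt_of_le_of_ne (h hz) fun e => x.2.elim (fun h1 => hγ (e ▸ h1.2 hz)) fun h1 =>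
    h' (le_antisymm h fun _ hw => h1 (e ▸ hw) hz)

theorem not_pred (γ : Ω) : ¬ (ic γ : X Ev) ≤ io γ := fun h => lt_irrefl γ (h (mem_Iic.2 le_rfl))

theorem O_low {x : X Ev} (h : x ∈ O) : IsLowerSet x.1 := by
  rcases h with rfl | ⟨γ, -, rfl⟩
  exacts [isLowerSet_univ, isLowerSet_Iic γ]

theorem O_total {x y : X Ev} (hx : x ∈ O) (hy : y ∈ O) : x ≤ y ∨ y ≤ x := (O_low hx).total (O_low hy)

variable (h1 : ∀ x, ∃ y ∈ Ev, x ≤ y) (h2 : ∀ T : Set Ω, T.Countable → ∃ γ ∉ Ev, ∀ t ∈ T, t ≤ γ)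
include h1 h2

theorem ic_ne (γ : Ω) : ¬ (o : X Ev) ≤ ic γ := fun h => by
  obtain ⟨y, hy, h3⟩ := h1 γ
  obtain ⟨δ, h4, h5⟩ := h2 {y} (countable_singleton y)
  exact h4 (le_antisymm (h5 y rfl) ((h (mem_univ δ)).trans h3) ▸ hy)

theorem bdd {x : X Ev} (h : x ≠ o) : ∃ γ ∉ Ev, x ≤ ic γ := by
  rcases x.2 with h3 | h3
  · exact h2 _ h3.1.countable
  · obtain ⟨z, hz⟩ : ∃ z, z ∉ x.1 := by_contra fun h4 => h (le_antisymm (le_o x) fun z _ => by_contra fun h5 => h4 ⟨z, h5⟩)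
    obtain ⟨γ, h4, h5⟩ := h2 {z} (countable_singleton z)
    exact ⟨γ, h4, fun w hw => (le_of_not_ge fun h6 => hz (h3 h6 hw)).trans (h5 z rfl)⟩

theorem cont : Continuous fun p : X Ev × X Ev => m p.1 p.2 := by
  have h3 : ∀ p : X Ev, IsClopen ((fun q : X Ev × X Ev => m q.1 q.2) ⁻¹' Iic p) := fun p => by
    convert (Iic_clopen p).prod (Iic_clopen p) using 1
    exact Set.ext fun q => m_le
  have h4 : ∀ x y : X Ev, x ∈ O → y ≤ x → ∃ U ∈ 𝓝 x, ∃ V ∈ 𝓝 y, ∀ a ∈ U, ∀ b ∈ V, m a b ∈ O := by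
    rintro x y (rfl | ⟨γ, hγ, rfl⟩) hy
    · by_cases h5 : y = o
      · refine ⟨O, O_open.mem_nhds (Or.inl rfl), O, O_open.mem_nhds (Or.inl h5), fun a ha b hb => ?_⟩
        rcases O_total ha hb with h | h
        · rwa [m_eq'.2 h]
        · rwa [m_eq.2 h]
      · obtain ⟨γ, hγ, h6⟩ := bdd h1 h2 h5
        refine ⟨O ∩ (Iic (ic γ))ᶜ, (O_open.inter (Iic_clopen _).1.isOpen_compl).mem_nhds ⟨Or.inl rfl, ic_ne h1 h2 γ⟩,
          Iic y, (Iic_clopen y).2.mem_nhds (mem_Iic.2 le_rfl), fun a ha b hb => ?_⟩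
        rw [m_eq.2 (le_trans hb (h6.trans ((O_total ha.1 (Or.inr ⟨γ, hγ, rfl⟩)).resolve_left ha.2)))]
        exact ha.1
    · refine ⟨Iic (ic γ) ∩ (Iic (io γ))ᶜ, ((Iic_clopen _).2.inter (Iic_clopen _).1.isOpen_compl).mem_nhds
        ⟨mem_Iic.2 le_rfl, not_pred γ⟩, Iic (ic γ), (Iic_clopen _).2.mem_nhds hy, fun a ha b hb => ?_⟩
      rw [show a = ic γ from by_contra fun h => ha.2 (pred hγ ha.1 h), m_eq.2 hb]
      exact Or.inr ⟨γ, hγ, rfl⟩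
  refine continuous_generateFrom_iff.2 ?_
  rintro _ (⟨p, rfl | rfl⟩ | rfl)
  · exact (h3 p).2
  · exact (h3 p).1.isOpen_compl
  · refine isOpen_iff_mem_nhds.2 fun ⟨x, y⟩ h => ?_
    replace h : m x y ∈ O := h
    have h5 : m x y = x ∨ m x y = y := by
      by_contra h5
      have h6 : x ≠ m x y := fun e => h5 (Or.inl e.symm)
      have h7 : y ≠ m x y := fun e => h5 (Or.inr e.symm)
      rcases h with h | ⟨γ, hγ, h⟩
      · obtain ⟨γ, hγ, h8⟩ := bdd h1 h2 (h ▸ h6 :)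
        obtain ⟨δ, hδ, h9⟩ := bdd h1 h2 (h ▸ h7 :)
        exact ic_ne h1 h2 (max γ δ) (h.symm.le.trans (m_le.2 ⟨h8.trans (Iic_subset_Iic.2 (le_max_left _ _)),
          h9.trans (Iic_subset_Iic.2 (le_max_right _ _))⟩))
      · have h8 := m_le.1 h.le
        exact not_pred γ (h.symm.le.trans (m_le.2 ⟨pred hγ h8.1 (h ▸ h6 :), pred hγ h8.2 (h ▸ h7 :)⟩))
    rcases h5 with h5 | h5
    · obtain ⟨U, hU, V, hV, h6⟩ := h4 x y (h5 ▸ h :) (m_eq.1 h5)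
      exact mem_of_superset (prod_mem_nhds hU hV) fun q hq => h6 _ hq.1 _ hq.2
    · obtain ⟨U, hU, V, hV, h6⟩ := h4 y x (h5 ▸ h :) (m_eq'.1 h5)
      exact mem_of_superset (prod_mem_nhds hV hU) fun q hq => mem_preimage.2 (m_comm q.2 q.1 ▸ h6 _ hq.2 _ hq.1)

omit h1 h2 in
theorem lim {A : Set (X Ev)} (hA : A.Nonempty) (hc : IsChain (· ≤ ·) A) {p : X Ev} (hp : IsLUB A p)
    (hO : p ∈ O → A ⊆ O) : p ∈ closure A := by
  have := hA.to_subtype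
  have : IsDirectedOrder A := hc.directedOn.isDirectedOrder
  refine mem_closure_of_tendsto (f := Subtype.val) (b := (atTop : Filter A)) ?_ (Eventually.of_forall fun a => a.2)
  refine tendsto_nhds_generateFrom_iff.2 ?_
  rintro _ (⟨q, rfl | rfl⟩ | rfl) h
  · exact Eventually.of_forall fun a => (hp.1 a.2).trans h
  · obtain ⟨a, ha, h3⟩ : ∃ a ∈ A, ¬ a ≤ q := by_contra fun h3 => h (hp.2 fun a ha => by_contra fun h4 => h3 ⟨a, ha, h4⟩)
    exact (eventually_ge_atTop (⟨a, ha⟩ : A)).mono fun b hb h4 => h3 (le_trans hb h4)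
  · exact Eventually.of_forall fun a => hO h a.2

omit h1 h2 in
theorem least [WellFoundedLT Ω] {A : Set (X Ev)} (hA : A.Nonempty) (hc : IsChain (· ≤ ·) A) :
    ∃ a ∈ A, ∀ b ∈ A, a ≤ b := by
  by_cases h3 : ∃ a ∈ A, a.1.Finite
  · obtain ⟨a, ha, h4⟩ := (measure fun a : X Ev => a.1.ncard).wf.has_min {a | a ∈ A ∧ a.1.Finite} h3
    refine ⟨a, ha.1, fun b hb => (hc.total ha.1 hb).elim id fun h => ?_⟩
    exact (eq_of_subset_of_ncard_le h (not_lt.1 (h4 b ⟨hb, ha.2.subset h⟩)) ha.2).ge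
  · by_cases h4 : ∃ γ, ∃ a ∈ A, γ ∉ a.1
    · obtain ⟨γ, ⟨a, ha, h5⟩, h6⟩ := wellFounded_lt.has_min {γ | ∃ a ∈ A, γ ∉ a.1} h4
      refine ⟨a, ha, fun b hb z hz => by_contra fun h7 => h6 z ⟨b, hb, h7⟩ (lt_of_not_ge fun h8 => h5 ?_)⟩
      exact (a.2.resolve_left fun h => h3 ⟨a, ha, h.1⟩) h8 hz
    · obtain ⟨a, ha⟩ := hA
      exact ⟨a, ha, fun b hb z _ => by_contra fun h => h4 ⟨z, b, hb, h⟩⟩

omit h1 h2 in
theorem chain_iff {C : Set (X Ev)} : Chain m C ↔ IsChain (· ≤ ·) C :=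
  ⟨fun h x hx y hy _ => (h x hx y hy).symm.imp m_eq'.1 m_eq.1,
    fun h x hx y hy => (h.total hx hy).symm.imp m_eq.2 m_eq'.2⟩

theorem sup_mem {L T : Set (X Ev)} (hL : Maximal (Chain m) L) (hT : T ⊆ L) (hne : T.Nonempty) :
    ∃ p ∈ L, IsLUB T p ∧ p ∈ closure {x | x ∈ L ∧ ∃ t ∈ T, x ≤ t} := by
  have hc := chain_iff.1 hL.prop
  have h3 : ∀ p, (∀ l ∈ L, p ≤ l ∨ l ≤ p) → p ∈ L := fun p h => hL.le_of_ge (y := insert p L)
    (chain_iff.2 (hc.insert fun l hl _ => h l hl)) (subset_insert _ _) (mem_insert _ _)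
  have h4 : IsLUB T (c (⋃ t ∈ T, t.1)) := ⟨fun t ht => (subset_biUnion_of_mem (u := fun t : X Ev => t.1) ht).trans
    (c_le.1 le_rfl), fun b hb => c_le.2 (iUnion₂_subset fun t ht => hb ht)⟩
  generalize c (⋃ t ∈ T, t.1) = p at h4
  refine ⟨p, h3 p fun l hl => ?_, h4, ?_⟩
  · by_cases h5 : ∃ t ∈ T, l ≤ t
    · obtain ⟨t, ht, h5⟩ := h5
      exact Or.inr (h5.trans (h4.1 ht))
    · exact Or.inl (h4.2 fun t ht => (hc.total (hT ht) hl).resolve_right fun h => h5 ⟨t, ht, h⟩)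
  by_cases h5 : p ∈ T
  · exact subset_closure ⟨hT h5, p, h5, le_rfl⟩
  by_cases h6 : p = o
  · subst h6
    obtain ⟨t, ht, h6⟩ : ∃ t ∈ T, ¬ t.1.Finite := by
      by_contra h6
      push Not at h6
      have h7 : T.Countable := MapsTo.countable_of_injOn (f := fun t => t.1.ncard) (mapsTo_univ _ _) (fun a ha b hb h =>
        (hc.total (hT ha) (hT hb)).elim (fun h' => Subtype.ext (eq_of_subset_of_ncard_le h' h.ge (h6 b hb)))
          fun h' => Subtype.ext (eq_of_subset_of_ncard_le h' h.le (h6 a ha)).symm) countable_univ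
      obtain ⟨γ, -, h8⟩ := h2 _ (h7.biUnion fun t ht => (h6 t ht).countable)
      exact ic_ne h1 h2 γ (h4.2 fun t ht z hz => h8 z (mem_iUnion₂.2 ⟨t, ht, hz⟩))
    obtain ⟨δ, hδ, h7⟩ := bdd h1 h2 (x := t) fun e => h5 (e ▸ ht)
    refine closure_mono ?_ (lim (A := {x | ∃ γ ∉ Ev, t ≤ ic γ ∧ x = ic γ}) ⟨_, δ, hδ, h7, rfl⟩
      (fun _ ⟨γ, h, _, e⟩ _ ⟨γ', h', _, e'⟩ _ => O_total (Or.inr ⟨γ, h, e⟩) (Or.inr ⟨γ', h', e'⟩))
      ⟨fun x _ => le_o x, fun b hb z _ => ?_⟩ fun _ _ ⟨γ, h, _, e⟩ => Or.inr ⟨γ, h, e⟩)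
    · rintro _ ⟨γ, hγ, h8, rfl⟩
      have h9 : ic γ ∈ L := h3 _ fun l hl => (hc.total hl (hT ht)).elim (fun h => Or.inr (h.trans h8)) fun h =>
        (isLowerSet_Iic γ).total (l.2.resolve_left fun h' => h6 (h'.1.subset h))
      refine ⟨h9, by_contra fun h10 => ic_ne h1 h2 γ (h4.2 fun s hs => ?_)⟩
      exact (hc.total (hT hs) h9).resolve_right fun h => h10 ⟨s, hs, h⟩
    · obtain ⟨γ, hγ, h8⟩ := h2 {δ, z} (toFinite _).countable
      exact hb ⟨γ, hγ, h7.trans (Iic_subset_Iic.2 (h8 δ (Or.inl rfl))), rfl⟩ (h8 z (Or.inr rfl))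
  · refine closure_mono (fun t ht => by exact ⟨hT ht, t, ht, le_rfl⟩) (lim hne (hc.mono hT) h4 ?_)
    rintro (h | ⟨γ, hγ, rfl⟩)
    · exact (h6 h).elim
    · exact (not_pred γ (h4.2 fun t ht => pred hγ (h4.1 ht) fun e => h5 (e ▸ ht))).elim

theorem chains [WellFoundedLT Ω] (L : Set (X Ev)) (hL : Maximal (Chain m) L) : SComplete (res m L hL.prop) := by
  have h3 : ∀ x y : L, res m L hL.prop x y = x ↔ y.1 ≤ x.1 := fun x y => Subtype.ext_iff.trans m_eq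
  simp only [SComplete, h3]
  refine ⟨fun S hS _ => ?_, fun C hC _ => ?_⟩
  · obtain ⟨p, hp, h4, h5⟩ := sup_mem h1 h2 hL (Subtype.coe_image_subset L S) (hS.image _)
    refine ⟨⟨p, hp⟩, fun s hs => h4.1 ⟨s, hs, rfl⟩, fun b hb => h4.2 (forall_mem_image.2 hb),
      closure_subtype.2 (closure_mono ?_ h5)⟩
    rintro x ⟨hx, _, ⟨t, ht, rfl⟩, h⟩
    exact ⟨⟨x, hx⟩, ⟨t, ht, h⟩, rfl⟩
  · obtain ⟨_, ⟨a, ha, rfl⟩, h4⟩ := least (hC.image Subtype.val)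
      ((chain_iff.1 hL.prop).mono (Subtype.coe_image_subset L C))
    exact ⟨a, fun c hc => h4 _ ⟨c, hc, rfl⟩, fun b hb => hb a ha, subset_closure ⟨a, ha, le_rfl⟩⟩

theorem not_sc : ¬ SComplete (m : X Ev → X Ev → X Ev) := by
  intro h
  obtain ⟨a, h3, -, h4⟩ := h.1 {x | x.1.Finite ∧ x.1 ⊆ Ev} ⟨⟨∅, Or.inl ⟨finite_empty, empty_subset _⟩⟩,
    finite_empty, empty_subset _⟩ fun x hx y hy => by
      have h5 : m x y ≤ ⟨x.1 ∪ y.1, Or.inl ⟨hx.1.union hy.1, union_subset hx.2 hy.2⟩⟩ := c_le.2 subset_rfl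
      exact ⟨(hx.1.union hy.1).subset h5, Subset.trans h5 (union_subset hx.2 hy.2)⟩
  have h5 : a = o := by_contra fun h5 => by
    obtain ⟨γ, hγ, h6⟩ := bdd h1 h2 h5
    refine ic_ne h1 h2 γ fun z _ => ?_
    obtain ⟨y, hy, h7⟩ := h1 z
    have h8 : ({y} : Set Ω).Finite ∧ {y} ⊆ Ev := ⟨finite_singleton y, singleton_subset_iff.2 hy⟩
    exact h7.trans (h6 (m_eq.1 (h3 ⟨{y}, Or.inl h8⟩ h8) rfl))
  obtain ⟨x, h6, s, hs, h7⟩ := mem_closure_iff.1 h4 O O_open (Or.inl h5)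
  have h8 : x.1 ⊆ Ev := Subset.trans (m_eq.1 h7) hs.2
  rcases h6 with rfl | ⟨γ, hγ, rfl⟩
  · obtain ⟨γ, hγ, -⟩ := h2 ∅ countable_empty
    exact hγ (h8 (mem_univ γ))
  · exact hγ (h8 (mem_Iic.2 le_rfl))

omit h1 h2 in
/-- the negated form of Q1 -/
theorem result : ∃ (X : Type) (_ : TopologicalSpace X) (m : X → X → X), T2Space X ∧
    (Continuous fun p : X × X => m p.1 p.2) ∧ (∀ x y z, m (m x y) z = m x (m y z)) ∧ (∀ x y, m x y = m y x) ∧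
    (∀ x, m x x = x) ∧ (∀ (L : Set X) (h : Maximal (Chain m) L), SComplete (res m L h.prop)) ∧ ¬ SComplete m := by
  let W := (Cardinal.aleph 1).ord.ToType
  have hW : ∀ T : Set W, T.Countable → ∃ w, ∀ t ∈ T, t < w := fun T hT => by
    by_contra h
    push Not at h
    have h3 : (univ : Set W).Countable := (hT.biUnion fun t _ => (Cardinal.countable_iff_lt_aleph_one _).2
      (Cardinal.mk_Iio_ord_toType t) |>.insert t).mono fun w _ => by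
        obtain ⟨t, ht, h3⟩ := h w
        exact mem_iUnion₂.2 ⟨t, ht, h3.eq_or_lt⟩
    have h4 := (Cardinal.countable_iff_lt_aleph_one _).1 h3
    simp [W] at h4
  let Ev : Set (W ×ₗ Bool) := {x | (ofLex x).2 = false}
  have h1 : ∀ x, ∃ y ∈ Ev, x ≤ y := fun x => by
    obtain ⟨w, hw⟩ := hW {(ofLex x).1} (countable_singleton _)
    exact ⟨toLex (w, false), rfl, (Prod.Lex.lt_iff.2 (Or.inl (hw _ rfl))).le⟩
  have h2 : ∀ T : Set (W ×ₗ Bool), T.Countable → ∃ γ ∉ Ev, ∀ t ∈ T, t ≤ γ := fun T hT => by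
    obtain ⟨w, hw⟩ := hW _ (hT.image fun x => (ofLex x).1)
    exact ⟨toLex (w, true), by simp [Ev], fun t ht => (Prod.Lex.lt_iff.2 (Or.inl (hw _ ⟨t, ht, rfl⟩))).le⟩
  exact ⟨X Ev, inferInstance, m, inferInstance, cont h1 h2,
    fun x y z => eq_of_forall_ge_iff fun _ => by simp only [m_le, and_assoc], m_comm, fun x => m_eq.2 le_rfl,
    chains h1 h2, not_sc h1 h2⟩

end Pool.Agent.Results.MP_cb28d9_gt.Counter
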